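import Mathlib

/-!
# Graphs given by adjacency lists
-/

namespace Pool.Agent.R550.GB

/-- The graph given by a list `A` of adjacency lists: its vertices are `0, …, n - 1`, where `n` is
the length of `A`, and two different vertices `u`, `v` are adjacent if `v` occurs in the `u`-th list
or `u` occurs in the `v`-th list. -/
def graph (A : List (List ℕ)) : SimpleGraph (Fin A.length) :=
  SimpleGraph.fromRel fun u v => (v : ℕ) ∈ A[u]

end Pool.Agent.R550.GB
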