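import Pool.Agent.R550.GB.Graph
import Pool.Agent.H671R2.PolyAuto

/-!
# Building graphs from blocks of vertices
-/

namespace Pool.Agent.R550.GB

open Pool.Agent.NPC

/-- the adjacency lists of the graph on the list `vs` with the adjacency test `T` -/
def mkL (vs : List (ℕ × ℕ)) (T : ℕ × ℕ → ℕ × ℕ → Bool) : List (List ℕ) :=
  vs.map fun x => (vs.zipIdx.filter fun p => T x p.1).map fun p => p.2

theorem mkL_length (vs : List (ℕ × ℕ)) (T : ℕ × ℕ → ℕ × ℕ → Bool) :
    (mkL vs T).length = vs.length := by simp [mkL]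

theorem mkL_adj (vs : List (ℕ × ℕ)) (T : ℕ × ℕ → ℕ × ℕ → Bool) (u v : Fin (mkL vs T).length) :
    (graph (mkL vs T)).Adj u v ↔ u ≠ v ∧
      (T (vs[u]'(by simpa [mkL] using u.2)) (vs[v]'(by simpa [mkL] using v.2)) = true ∨
       T (vs[v]'(by simpa [mkL] using v.2)) (vs[u]'(by simpa [mkL] using u.2)) = true) := by
  have key : ∀ u v : Fin (mkL vs T).length, (v : ℕ) ∈ (mkL vs T)[u] ↔
      T (vs[u]'(by simpa [mkL] using u.2)) (vs[v]'(by simpa [mkL] using v.2)) = true := by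
    intro u v
    have hv : (v : ℕ) < vs.length := by simpa [mkL] using v.2
    rw [Fin.getElem_fin]
    simp only [mkL, List.getElem_map, List.mem_map, List.mem_filter]
    constructor
    · rintro ⟨⟨y, i⟩, ⟨h1, h2⟩, h3⟩
      rw [List.mem_zipIdx_iff_getElem?] at h1
      simp only at h1 h2 h3
      subst h3
      rw [List.getElem?_eq_getElem hv] at h1
      simp only [Option.some.injEq] at h1
      subst h1
      exact h2
    · intro h
      refine ⟨(vs[(v : ℕ)], (v : ℕ)), ⟨?_, h⟩, rfl⟩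
      rw [List.mem_zipIdx_iff_getElem?]
      exact List.getElem?_eq_getElem hv
  unfold graph
  rw [SimpleGraph.fromRel_adj, key, key]

/-- the list of the vertices `(t, i)`, `t < K`, `i < cnt t` -/
def blocks (K : ℕ) (cnt : ℕ → ℕ) : List (ℕ × ℕ) :=
  (List.range K).flatMap fun t => (List.range (cnt t)).map fun i => (t, i)

theorem mem_blocks {K : ℕ} {cnt : ℕ → ℕ} {x : ℕ × ℕ} :
    x ∈ blocks K cnt ↔ x.1 < K ∧ x.2 < cnt x.1 := by
  obtain ⟨t, i⟩ := x
  simp only [blocks, List.mem_flatMap, List.mem_range, List.mem_map, Prod.mk.injEq]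
  constructor
  · rintro ⟨t', ht, i', hi, rfl, rfl⟩
    exact ⟨ht, hi⟩
  · rintro ⟨ht, hi⟩
    exact ⟨t, ht, i, hi, rfl, rfl⟩

theorem blocks_nodup (K : ℕ) (cnt : ℕ → ℕ) : (blocks K cnt).Nodup := by
  unfold blocks
  rw [List.nodup_flatMap]
  constructor
  · intro t _
    exact List.Nodup.map (fun i i' h => (Prod.mk.inj h).2) List.nodup_range
  · refine (List.nodup_range (n := K)).imp fun {t t'} hne x hx hx' => ?_
    obtain ⟨i, _, rfl⟩ := List.mem_map.1 hx
    obtain ⟨i', _, h⟩ := List.mem_map.1 hx'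
    exact hne (Prod.mk.inj h).1.symm

/-- **Labels.** The vertices of the graph correspond to the pairs `(t, i)`. -/
theorem exists_lab (K : ℕ) (cnt : ℕ → ℕ) (T : ℕ × ℕ → ℕ × ℕ → Bool) :
    ∃ lab : Fin (mkL (blocks K cnt) T).length → ℕ × ℕ, Function.Injective lab ∧
      (∀ v, (lab v).1 < K ∧ (lab v).2 < cnt (lab v).1) ∧
      (∀ t i, t < K → i < cnt t → ∃ v, lab v = (t, i)) ∧
      ∀ u v, (graph (mkL (blocks K cnt) T)).Adj u v ↔
        u ≠ v ∧ (T (lab u) (lab v) = true ∨ T (lab v) (lab u) = true) := by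
  have hlen : (mkL (blocks K cnt) T).length = (blocks K cnt).length := mkL_length _ _
  refine ⟨fun v => (blocks K cnt)[(v : ℕ)]'(by rw [← hlen]; exact v.2), ?_, ?_, ?_, ?_⟩
  · intro u v h
    exact Fin.ext ((List.Nodup.getElem_inj_iff (blocks_nodup K cnt)).1 h)
  · intro v
    exact mem_blocks.1 (List.getElem_mem _)
  · intro t i ht hi
    obtain ⟨j, hj, hj'⟩ := List.getElem_of_mem (mem_blocks.2 ⟨ht, hi⟩ : (t, i) ∈ blocks K cnt)
    exact ⟨⟨j, by rw [hlen]; exact hj⟩, hj'⟩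
  · intro u v
    exact mkL_adj (blocks K cnt) T u v

section

variable {α : Type} [TEnc α]

theorem poly_mkL {vs : α → List (ℕ × ℕ)} {t : α → ℕ × ℕ → ℕ × ℕ → Bool} (hvs : NPC.Poly vs)
    (ht : NPC.Poly (fun p : (α × (ℕ × ℕ)) × (ℕ × ℕ) => t p.1.1 p.1.2 p.2)) :
    NPC.Poly (fun a => mkL (vs a) (t a)) := by
  unfold mkL
  refine NPC.Poly.map (F := fun a x => ((vs a).zipIdx.filter fun p => t a x p.1).map
    fun p => p.2) hvs ?_
  refine NPC.Poly.map (F := fun (_ : α × (ℕ × ℕ)) (p : (ℕ × ℕ) × ℕ) => p.2) ?_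
    (by fun_prop)
  refine NPC.Poly.filter (p := fun (z : α × (ℕ × ℕ)) (p : (ℕ × ℕ) × ℕ) => t z.1 z.2 p.1)
    (NPC.Poly.zipIdx (hvs.comp (NPC.Poly.fst NPC.Poly.id))) ?_
  exact ht.comp (NPC.Poly.pair (NPC.Poly.pair (NPC.Poly.fst (NPC.Poly.fst NPC.Poly.id))
    (NPC.Poly.snd (NPC.Poly.fst NPC.Poly.id))) (NPC.Poly.fst (NPC.Poly.snd NPC.Poly.id)))

/-- a function of the block number given by a list -/
def cntL (l : List ℕ) (t : ℕ) : ℕ := l.getD t 0

theorem poly_blocks (K : ℕ) {cnt : α → ℕ → ℕ} (h : ∀ t, UPoly fun a => cnt a t) :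
    NPC.Poly (fun a => blocks K (cnt a)) := by
  unfold blocks
  induction K with
  | zero => exact NPC.Poly.const []
  | succ K ih =>
    have h1 : NPC.Poly (fun a => (List.range (cnt a K)).map fun i => (K, i)) :=
      NPC.Poly.map (F := fun _ i => (K, i)) (h K).range (by fun_prop)
    refine (NPC.Poly.append ih h1).congr fun a => ?_
    rw [List.range_succ, List.flatMap_append, List.flatMap_cons, List.flatMap_nil,
      List.append_nil]

end

end Pool.Agent.R550.GB
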